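import Pool.Agent.Helper21.CU.St

/-!
# MP_ad0dc2_nt, project CU, module MUL: sums of multiplicative functions over smooth numbers
-/

set_option autoImplicit false

namespace Pool.Agent.Helper84.CU

open Pool.Agent.Helper21.CU Finset

open scoped Classical in
theorem hMUL : StMUL := by
  intro f hf0 hf1 hmul P A hP
  induction P using Finset.induction_on with
  | empty =>
    rw [prod_empty]
    calc ∑ a ∈ (Icc 1 A).filter (fun a : ℕ => ∀ p : ℕ, p.Prime → p ∣ a → p ∈ (∅ : Finset ℕ)), f a
        ≤ ∑ a ∈ ({1} : Finset ℕ), f a := by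
          apply sum_le_sum_of_subset_of_nonneg
          · intro a ha
            obtain ⟨h1, h2⟩ := mem_filter.1 ha
            rw [mem_singleton]
            by_contra hne
            obtain ⟨q, hq, hqa⟩ := Nat.exists_prime_and_dvd hne
            exact absurd (h2 q hq hqa) (by simp)
          · intro a _ _
            exact hf0 a
      _ = 1 := by rw [sum_singleton, hf1]
  | insert p P hpP ih =>
    have hp : p.Prime := hP p (mem_insert_self _ _)
    have hP' : ∀ q ∈ P, q.Prime := fun q hq => hP q (mem_insert_of_mem hq)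
    have ih' := ih hP'
    rw [prod_insert hpP]
    obtain ⟨T, hT⟩ : ∃ T, T = (Icc 1 A).filter
      (fun a : ℕ => ∀ q : ℕ, q.Prime → q ∣ a → q ∈ P) := ⟨_, rfl⟩
    obtain ⟨T', hT'⟩ : ∃ T', T' = (Icc 1 A).filter
      (fun a : ℕ => ∀ q : ℕ, q.Prime → q ∣ a → q ∈ insert p P) := ⟨_, rfl⟩
    rw [← hT] at ih'
    rw [← hT']
    have hpos : ∀ a ∈ T', a ≠ 0 := by
      intro a ha
      rw [hT'] at ha
      have := (mem_Icc.1 (mem_filter.1 ha).1).1
      omega
    let φ : ℕ → ℕ × ℕ := fun a => (a.factorization p, a / p ^ a.factorization p)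
    let F : ℕ × ℕ → ℝ := fun x => f (p ^ x.1) * f x.2
    have h1 : ∀ a ∈ T', f a = F (φ a) := by
      intro a ha
      have ha0 := hpos a ha
      have h2 : p ^ a.factorization p * (a / p ^ a.factorization p) = a :=
        Nat.ordProj_mul_ordCompl_eq_self a p
      have h3 : (p ^ a.factorization p).Coprime (a / p ^ a.factorization p) :=
        (Nat.coprime_ordCompl hp ha0).pow_left _
      show f a = f (p ^ a.factorization p) * f (a / p ^ a.factorization p)
      rw [← hmul _ _ h3, h2]
    have hinj : Set.InjOn φ (T' : Set ℕ) := by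
      intro a _ b _ hab
      have h2 : p ^ a.factorization p * (a / p ^ a.factorization p) = a :=
        Nat.ordProj_mul_ordCompl_eq_self a p
      have h3 : p ^ b.factorization p * (b / p ^ b.factorization p) = b :=
        Nat.ordProj_mul_ordCompl_eq_self b p
      have h4 : a.factorization p = b.factorization p := congrArg Prod.fst hab
      have h5 : a / p ^ a.factorization p = b / p ^ b.factorization p := congrArg Prod.snd hab
      rw [← h2, ← h3, h5, h4]
    have hsub : T'.image φ ⊆ range (A + 1) ×ˢ T := by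
      intro x hx
      obtain ⟨a, ha, rfl⟩ := mem_image.1 hx
      have ha0 := hpos a ha
      have ha' := ha
      rw [hT'] at ha'
      obtain ⟨h2, h3⟩ := mem_filter.1 ha'
      obtain ⟨h4, h5⟩ := mem_Icc.1 h2
      rw [mem_product]
      refine ⟨?_, ?_⟩
      · rw [mem_range]
        have := Nat.factorization_lt p ha0
        show a.factorization p < A + 1
        omega
      · show a / p ^ a.factorization p ∈ T
        rw [hT, mem_filter, mem_Icc]
        refine ⟨⟨Nat.ordCompl_pos p ha0, (Nat.ordCompl_le a p).trans h5⟩, ?_⟩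
        intro q hq hqd
        have h6 : q ∈ insert p P := h3 q hq (hqd.trans (Nat.ordCompl_dvd a p))
        rcases mem_insert.1 h6 with h7 | h7
        · exfalso
          subst h7
          have h8 := Nat.coprime_ordCompl hp ha0
          rw [Nat.Prime.coprime_iff_not_dvd hp] at h8
          exact h8 hqd
        · exact h7
    have hF0 : ∀ x, 0 ≤ F x := fun x => mul_nonneg (hf0 _) (hf0 _)
    have hG0 : 0 ≤ 1 + ∑ j ∈ Icc 1 A, f (p ^ j) :=
      add_nonneg zero_le_one (sum_nonneg fun _ _ => hf0 _)
    calc ∑ a ∈ T', f a = ∑ a ∈ T', F (φ a) := sum_congr rfl h1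
      _ = ∑ x ∈ T'.image φ, F x := (sum_image hinj).symm
      _ ≤ ∑ x ∈ range (A + 1) ×ˢ T, F x :=
          sum_le_sum_of_subset_of_nonneg hsub fun x _ _ => hF0 x
      _ = ∑ j ∈ range (A + 1), ∑ m ∈ T, f (p ^ j) * f m := sum_product _ _ _
      _ = (∑ j ∈ range (A + 1), f (p ^ j)) * ∑ m ∈ T, f m := by
          rw [sum_mul_sum]
      _ = (1 + ∑ j ∈ Icc 1 A, f (p ^ j)) * ∑ m ∈ T, f m := by
          congr 1
          rw [sum_range_succ', pow_zero, hf1, add_comm]
          congr 1
          rw [range_eq_Ico, sum_Ico_add' (fun j => f (p ^ j)) 0 A 1]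
          apply sum_congr _ fun _ _ => rfl
          ext j
          rw [mem_Ico, mem_Icc]
          omega
      _ ≤ (1 + ∑ j ∈ Icc 1 A, f (p ^ j)) * ∏ q ∈ P, (1 + ∑ j ∈ Icc 1 A, f (q ^ j)) :=
          mul_le_mul_of_nonneg_left ih' hG0

end Pool.Agent.Helper84.CU
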